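import Pool.Agent.Helper49.LC.St

/-!
Project LC, module HMS: the time one map of a compactly supported Hamiltonian isotopy.
-/

set_option autoImplicit false

open scoped ContDiff Topology NNReal
open Set Filter

namespace Pool.Agent.Helper37.LC

open Pool.Agent.Helper14.LK Pool.Agent.Helper49.LC

private theorem fd_slice {V G : Type} [NormedAddCommGroup V] [NormedSpace ℝ V]
    [NormedAddCommGroup G] [NormedSpace ℝ G] {F : ℝ × V → G} (hF : ContDiff ℝ ∞ F) (t : ℝ) (x : V) :
    HasFDerivAt (fun y => F (t, y)) ((fderiv ℝ F (t, x)).comp (ContinuousLinearMap.inr ℝ ℝ V)) x := by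
  have h1 : HasFDerivAt F (fderiv ℝ F (t, x)) (t, x) :=
    ((hF.differentiable (by simp)) (t, x)).hasFDerivAt
  have h2 : HasFDerivAt (fun y : V => ((t, y) : ℝ × V)) (ContinuousLinearMap.inr ℝ ℝ V) x :=
    hasFDerivAt_prodMk_right t x
  exact h1.comp x h2

/-- the symplectic gradient, as a linear map of the differential -/
private noncomputable def RZ (n : ℕ) : (WW n →L[ℝ] ℝ) →L[ℝ] WW n :=
  LinearMap.toContinuousLinearMap
    { toFun := fun l => (WithLp.toLp 2 (fun i => l (0, EuclideanSpace.single i 1)),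
        -WithLp.toLp 2 (fun i => l (EuclideanSpace.single i 1, 0)))
      map_add' := fun l m => by
        refine Prod.ext ?_ ?_
        · ext i; simp
        · ext i; simp; ring
      map_smul' := fun r l => by
        refine Prod.ext ?_ ?_
        · ext i; simp
        · ext i; simp }

private theorem om_RZ {n : ℕ} (l : WW n →L[ℝ] ℝ) (b : WW n) : om (RZ n l) b = l b := by
  have h1 : ∀ y : EE n, y = ∑ i, y i • EuclideanSpace.single i (1 : ℝ) := by
    intro y
    ext j
    simp [Pi.single_apply]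
  have h2 : l (0, b.2) = ∑ i, b.2 i * l (0, EuclideanSpace.single i 1) := by
    have e : ((0, b.2) : WW n) = ∑ i, b.2 i • ((0, EuclideanSpace.single i 1) : WW n) := by
      refine Prod.ext ?_ ?_
      · simp [Prod.fst_sum]
      · rw [Prod.snd_sum]
        simpa using h1 b.2
    rw [e, map_sum]
    exact Finset.sum_congr rfl fun i _ => by rw [map_smul, smul_eq_mul]
  have h3 : l (b.1, 0) = ∑ i, b.1 i * l (EuclideanSpace.single i 1, 0) := by
    have e : ((b.1, 0) : WW n) = ∑ i, b.1 i • ((EuclideanSpace.single i 1, 0) : WW n) := by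
      refine Prod.ext ?_ ?_
      · rw [Prod.fst_sum]
        simpa using h1 b.1
      · simp [Prod.snd_sum]
    rw [e, map_sum]
    exact Finset.sum_congr rfl fun i _ => by rw [map_smul, smul_eq_mul]
  have h4 : l b = l (b.1, 0) + l (0, b.2) := by
    rw [← map_add]
    simp
  have e1 : (RZ n l).1 = WithLp.toLp 2 (fun i => l (0, EuclideanSpace.single i 1)) := rfl
  have e2 : (RZ n l).2 = -WithLp.toLp 2 (fun i => l (EuclideanSpace.single i 1, 0)) := rfl
  rw [h4, h2, h3, om, e1, e2, inner_neg_left]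
  simp only [PiLp.inner_apply, RCLike.inner_apply, conj_trivial]
  ring

private theorem tr_deriv {t : ℝ} (ht : t ∉ Icc (0 : ℝ) 1) : deriv Real.smoothTransition t = 0 := by
  rw [mem_Icc, not_and_or, not_le, not_le] at ht
  rcases ht with ht | ht
  · have h1 : Real.smoothTransition =ᶠ[𝓝 t] fun _ => (0 : ℝ) := by
      filter_upwards [Iio_mem_nhds ht] with s hs
      exact Real.smoothTransition.zero_of_nonpos (le_of_lt hs)
    rw [h1.deriv_eq, deriv_const]
  · have h1 : Real.smoothTransition =ᶠ[𝓝 t] fun _ => (1 : ℝ) := by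
      filter_upwards [Ioi_mem_nhds ht] with s hs
      exact Real.smoothTransition.one_of_one_le (le_of_lt hs)
    rw [h1.deriv_eq, deriv_const]

theorem hHMS (hHFL : StHFL) : StHMS := by
  intro n H φ hI
  obtain ⟨hH, ⟨C, hC, hC0⟩, h0, hder⟩ := hI
  obtain ⟨r, hr, hCr⟩ := hC.isBounded.subset_ball_lt 0 (0 : WW n)
  have hCn : ∀ w : WW n, r ≤ ‖w‖ → w ∉ C := by
    intro w hw hwC
    have := hCr hwC
    rw [mem_ball_zero_iff] at this
    linarith
  obtain ⟨τ, hτ⟩ : ∃ τ : ℝ → ℝ, τ = Real.smoothTransition := ⟨_, rfl⟩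
  have hτs : ContDiff ℝ ∞ τ := by
    rw [hτ]
    exact Real.smoothTransition.contDiff
  have hτd : ContDiff ℝ ∞ (deriv τ) := (contDiff_infty_iff_deriv.1 hτs).2
  have hτ0 : τ 0 = 0 := by rw [hτ]; exact Real.smoothTransition.zero
  have hτ1 : τ 1 = 1 := by rw [hτ]; exact Real.smoothTransition.one
  have hτz : ∀ t, t ∉ Icc (0 : ℝ) 1 → deriv τ t = 0 := by
    intro t ht
    rw [hτ]
    exact tr_deriv ht
  have hτh : ∀ t, HasDerivAt τ (deriv τ t) t := fun t =>
    ((hτs.differentiable (by simp)) t).hasDerivAt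
  -- the new Hamiltonian
  obtain ⟨G, hG⟩ : ∃ G : ℝ × WW n → ℝ, G = fun q => deriv τ q.1 * H (τ q.1) q.2 := ⟨_, rfl⟩
  have hGs : ContDiff ℝ ∞ G := by
    rw [hG]
    have h1 : ContDiff ℝ ∞ (fun q : ℝ × WW n => ((τ q.1, q.2) : ℝ × WW n)) :=
      (hτs.comp contDiff_fst).prodMk contDiff_snd
    exact (hτd.comp contDiff_fst).mul (hH.comp h1)
  have hGc : HasCompactSupport G := by
    refine HasCompactSupport.intro ((isCompact_Icc (a := (0 : ℝ)) (b := 1)).prod hC) ?_
    rintro ⟨t, w⟩ hq
    rw [hG]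
    by_cases ht : t ∈ Icc (0 : ℝ) 1
    · have hw : w ∉ C := fun hw => hq ⟨ht, hw⟩
      simp only [hC0 _ w hw, mul_zero]
    · simp only [hτz t ht, zero_mul]
  -- the vector field
  obtain ⟨X, hX⟩ : ∃ X : ℝ × WW n → WW n, X = fun q =>
      RZ n ((fderiv ℝ G q).comp (ContinuousLinearMap.inr ℝ ℝ (WW n))) := ⟨_, rfl⟩
  have hGd : ContDiff ℝ ∞ (fderiv ℝ G) := hGs.fderiv_right (m := ∞) (by simp)
  have hXs : ContDiff ℝ ∞ X := by
    rw [hX]
    exact (RZ n).contDiff.comp (hGd.clm_comp contDiff_const)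
  have hXc : HasCompactSupport X := by
    rw [hX]
    refine (hGc.fderiv (𝕜 := ℝ)).comp_left
      (g := fun l : (ℝ × WW n) →L[ℝ] ℝ => RZ n (l.comp (ContinuousLinearMap.inr ℝ ℝ (WW n)))) ?_
    simp
  have hXom : ∀ t w b, om (X (t, w)) b = fderiv ℝ (fun w => G (t, w)) w b := by
    intro t w b
    rw [hX, om_RZ, (fd_slice hGs t w).fderiv]
  have hX0 : ∀ t w, r ≤ ‖w‖ → X (t, w) = 0 := by
    intro t w hw
    apply eq_of_om_eq
    intro b
    have h1 : (fun y => G (t, y)) =ᶠ[𝓝 w] fun _ => (0 : ℝ) := by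
      filter_upwards [hC.isClosed.isOpen_compl.mem_nhds (hCn w hw)] with y hy
      rw [hG]
      simp only [hC0 _ y hy, mul_zero]
    rw [hXom, h1.fderiv_eq, om_zero_left]
    simp
  obtain ⟨Φ, Φi, hΦ, hΦi, hl, hr', hsy, hΦ0, hout, hode⟩ :=
    hHFL n (fun t w => G (t, w)) (fun t w => X (t, w)) r hGs hXs hXc hXom hX0
  refine ⟨r, Φi 1, hr, Φ, Φi, hΦ, hΦi, hl, hr', hsy, hΦ0, ?_, ?_, rfl⟩
  · intro t w hw
    rw [sub_zero] at hw
    exact hout t w hw
  · funext w
    obtain ⟨K, hK⟩ := hXs.lipschitzWith_of_hasCompactSupport hXc (by simp)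
    have hK' : ∀ t, LipschitzOnWith K (fun w => X (t, w)) univ := by
      intro t
      refine LipschitzWith.lipschitzOnWith ?_
      intro x y
      refine (hK (t, x) (t, y)).trans ?_
      rw [Prod.edist_eq]
      simp
    have h1 : (fun s => Φ s w) = fun s => φ (τ s) w := by
      refine ODE_solution_unique_univ (v := fun t w => X (t, w)) (s := fun _ => univ) (K := K)
        (t₀ := 0) hK' (fun t => ⟨hode t w, mem_univ _⟩) (fun t => ⟨?_, mem_univ _⟩) ?_
      · obtain ⟨v, hv, hvb⟩ := hder (τ t) w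
        have h2 : HasDerivAt (fun s => φ (τ s) w) (deriv τ t • v) t := hv.scomp t (hτh t)
        have h3 : deriv τ t • v = X (t, φ (τ t) w) := by
          apply eq_of_om_eq
          intro b
          rw [om_smul_left, hvb, hXom]
          have h4 : (fun w => G (t, w)) = fun w => deriv τ t * H (τ t) w := by
            funext y
            rw [hG]
          have h5 : DifferentiableAt ℝ (H (τ t)) (φ (τ t) w) :=
            (fd_slice hH (τ t) (φ (τ t) w)).differentiableAt
          rw [h4, fderiv_const_mul h5]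
          rfl
        rw [← h3]
        exact h2
      · simp only [hΦ0, hτ0, h0]
    have h2 := congrFun h1 1
    simp only [hτ1] at h2
    exact h2

end Pool.Agent.Helper37.LC
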